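import Mathlib
import Pool.Agent.Lib.Helper86.FlagSphere.Defs

/-!
# Dimensions of modules over real Clifford algebras

* `two_pow_rhPhi_dvd_finrank`: if `V` carries `n` anticommuting complex structures, then
  `2 ^ rhPhi n` divides `dim V`.
* `exists_clifford_matrices`: there are `n` skew anticommuting complex structures on
  `ℝ ^ (2 ^ rhPhi n)`.
-/

set_option autoImplicit false

namespace Pool.Agent.Helper86.FlagSphere

open Module

namespace Clifford

/-! ### sign calculus -/

/-- `a` and `b` commute up to the sign `e` -/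
def Q {A : Type*} [Ring A] (e : ℤ) (a b : A) : Prop := a * b = e • (b * a)

section ring
variable {A : Type*} [Ring A]

lemma Q_mul_right {e f : ℤ} {a b c : A} (h1 : Q e a b) (h2 : Q f a c) : Q (e * f) a (b * c) := by
  unfold Q at *
  calc a * (b * c) = (a * b) * c := by rw [mul_assoc]
    _ = e • (b * (a * c)) := by rw [h1, smul_mul_assoc, mul_assoc]
    _ = (e * f) • (b * c * a) := by rw [h2, mul_smul_comm, smul_smul, mul_assoc]

lemma Q_mul_left {e f : ℤ} {a b c : A} (h1 : Q e a c) (h2 : Q f b c) : Q (e * f) (a * b) c := by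
  unfold Q at *
  calc a * b * c = a * (b * c) := by rw [mul_assoc]
    _ = f • ((a * c) * b) := by rw [h2, mul_smul_comm, mul_assoc]
    _ = (e * f) • (c * (a * b)) := by rw [h1, smul_mul_assoc, smul_smul, mul_assoc, mul_comm e f]

lemma Q_one_right (a : A) : Q 1 a 1 := by simp [Q]
lemma Q_one_left (a : A) : Q 1 1 a := by simp [Q]

/-- the sign of two generators -/
def sg {ι : Type*} [DecidableEq ι] (i j : ι) : ℤ := if i = j then 1 else -1

/-- product of a list of generators -/
def wd {ι : Type*} (J : ι → A) (L : List ι) : A := (L.map J).prod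

variable {ι : Type*} [DecidableEq ι] {J : ι → A}

/-- anticommuting family of square roots of `-1` -/
structure IsCliff (J : ι → A) : Prop where
  sq : ∀ i, J i * J i = -1
  anti : ∀ i j, i ≠ j → J i * J j = -(J j * J i)

lemma IsCliff.Q (h : IsCliff J) (i j : ι) : Clifford.Q (sg i j) (J i) (J j) := by
  unfold Clifford.Q sg
  split_ifs with hij
  · subst hij; simp
  · rw [h.anti i j hij]; simp

/-- sign of a generator against a list -/
def sg1 (i : ι) (L : List ι) : ℤ := (L.map (sg i)).prod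
/-- sign of two lists -/
def sg2 (L M : List ι) : ℤ := (L.map (fun i => sg1 i M)).prod

lemma IsCliff.Q1 (h : IsCliff J) (i : ι) (L : List ι) : Clifford.Q (sg1 i L) (J i) (wd J L) := by
  induction L with
  | nil => simpa [sg1, wd] using Q_one_right (J i)
  | cons j L ih =>
    have := Q_mul_right (h.Q i j) ih
    simpa [sg1, wd] using this

lemma IsCliff.Q2 (h : IsCliff J) (L M : List ι) : Clifford.Q (sg2 L M) (wd J L) (wd J M) := by
  induction L with
  | nil => simpa [sg2, wd] using Q_one_left (wd J M)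
  | cons j L ih =>
    have := Q_mul_left (h.Q1 j M) ih
    simpa [sg2, wd] using this

/-- sign of the square of a word -/
def sqs : List ι → ℤ
  | [] => 1
  | i :: L => -(sg1 i L * sqs L)

lemma sg_mul_self (i j : ι) : sg i j * sg i j = 1 := by
  unfold sg; split_ifs <;> norm_num

lemma sg1_mul_self (i : ι) (L : List ι) : sg1 i L * sg1 i L = 1 := by
  induction L with
  | nil => simp [sg1]
  | cons j L ih =>
    simp only [sg1, List.map_cons, List.prod_cons] at ih ⊢
    calc _ = (sg i j * sg i j) * ((L.map (sg i)).prod * (L.map (sg i)).prod) := by ring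
      _ = 1 := by rw [sg_mul_self, ih, one_mul]

lemma IsCliff.sq_wd (h : IsCliff J) (L : List ι) : wd J L * wd J L = sqs L • (1 : A) := by
  induction L with
  | nil => simp [wd, sqs]
  | cons i L ih =>
    have h1 : wd J (i :: L) = J i * wd J L := by simp [wd]
    have h2 := h.Q1 i L
    unfold Clifford.Q at h2
    have h3 : wd J L * J i = sg1 i L • (J i * wd J L) := by
      rw [h2, smul_smul, sg1_mul_self, one_smul]
    rw [h1]
    calc J i * wd J L * (J i * wd J L) = J i * (wd J L * J i) * wd J L := by noncomm_ring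
      _ = sg1 i L • ((J i * J i) * (wd J L * wd J L)) := by
          rw [h3, mul_smul_comm, smul_mul_assoc]; congr 1; noncomm_ring
      _ = sqs (i :: L) • (1 : A) := by
          rw [h.sq, ih, mul_smul_comm, smul_smul, sqs]
          simp

end ring

/-! ### halving -/

section halving
variable {V : Type*} [AddCommGroup V] [Module ℝ V] [FiniteDimensional ℝ V]

lemma halving (S : Submodule ℝ V) (I J : End ℝ V) (hSI : ∀ v ∈ S, I v ∈ S)
    (hSJ : ∀ v ∈ S, J v ∈ S) (hI : I * I = 1) (hJ : J * J = -1) (hJI : J * I = -(I * J)) :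
    finrank ℝ S = 2 * finrank ℝ (S ⊓ LinearMap.ker (I - 1) : Submodule ℝ V) := by
  set T : Submodule ℝ V := S ⊓ LinearMap.ker (I - 1) with hT
  have memT : ∀ v, v ∈ T ↔ v ∈ S ∧ I v = v := by
    intro v
    rw [hT, Submodule.mem_inf, LinearMap.mem_ker]
    simp [sub_eq_zero]
  have hI' : ∀ v, I (I v) = v := fun v => by
    have := congrArg (fun f : End ℝ V => f v) hI
    simpa using this
  have hJ' : ∀ v, J (J v) = -v := fun v => by
    have := congrArg (fun f : End ℝ V => f v) hJ
    simpa using this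
  have hJI' : ∀ v, J (I v) = -(I (J v)) := fun v => by
    have := congrArg (fun f : End ℝ V => f v) hJI
    simpa using this
  let φ : (T × T) →ₗ[ℝ] S :=
    { toFun := fun p => ⟨p.1 + J p.2, S.add_mem ((memT _).mp p.1.2).1 (hSJ _ ((memT _).mp p.2.2).1)⟩
      map_add' := by
        intro p q
        ext
        simp only [Prod.fst_add, Prod.snd_add, Submodule.coe_add, map_add]
        abel
      map_smul' := by
        intro c p
        ext
        simp }
  have hinj : Function.Injective φ := by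
    rw [← LinearMap.ker_eq_bot, LinearMap.ker_eq_bot']
    rintro ⟨a, b⟩ h
    have h1 : (a : V) + J b = 0 := congrArg Subtype.val h
    have ha := ((memT _).mp a.2).2
    have hb := ((memT _).mp b.2).2
    have h2 : I ((a : V) + J b) = 0 := by rw [h1, map_zero]
    have h3 : I (J (b : V)) = -J b := by
      have := hJI' b
      rw [hb] at this
      exact (neg_eq_iff_eq_neg.mpr this).symm
    rw [map_add, ha, h3] at h2
    have h4 : (a : V) = 0 := by
      have h5 : (a : V) + a = 0 := by
        calc (a : V) + a = ((a : V) + J b) + (a + -J b) := by abel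
          _ = 0 := by rw [h1, h2, add_zero]
      have h6 : (2 : ℝ) • (a : V) = 0 := by rw [two_smul]; exact h5
      exact (smul_eq_zero.mp h6).resolve_left two_ne_zero
    have h7 : J (b : V) = 0 := by rw [h4, zero_add] at h1; exact h1
    have h8 : (b : V) = 0 := by
      have := hJ' b
      rw [h7, map_zero] at this
      exact (neg_eq_zero.mp this.symm)
    ext <;> simp [h4, h8]
  have hsurj : Function.Surjective φ := by
    rintro ⟨v, hv⟩
    have ha : ((1/2 : ℝ) • (v + I v)) ∈ T := by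
      rw [memT]
      refine ⟨S.smul_mem _ (S.add_mem hv (hSI v hv)), ?_⟩
      rw [map_smul, map_add, hI', add_comm]
    have hb : ((-1/2 : ℝ) • (J (v - I v))) ∈ T := by
      rw [memT]
      refine ⟨S.smul_mem _ (hSJ _ (S.sub_mem hv (hSI v hv))), ?_⟩
      have : I (J (v - I v)) = J (v - I v) := by
        have h1 := hJI' (v - I v)
        rw [map_sub, hI'] at h1
        have h2 : J (I v - v) = - J (v - I v) := by rw [← map_neg]; congr 1; abel
        rw [h2] at h1
        exact (neg_inj.mp h1).symm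
      rw [map_smul, this]
    refine ⟨(⟨_, ha⟩, ⟨_, hb⟩), ?_⟩
    ext
    change (1/2 : ℝ) • (v + I v) + J ((-1/2 : ℝ) • (J (v - I v))) = v
    rw [map_smul, hJ']
    module
  have h := (LinearEquiv.ofBijective φ ⟨hinj, hsurj⟩).finrank_eq
  rw [Module.finrank_prod] at h
  omega

lemma mem_fix {S : Submodule ℝ V} {I : End ℝ V} {v : V} :
    v ∈ (S ⊓ LinearMap.ker (I - 1) : Submodule ℝ V) ↔ v ∈ S ∧ I v = v := by
  rw [Submodule.mem_inf, LinearMap.mem_ker]
  simp [sub_eq_zero]

lemma stable_fix {S : Submodule ℝ V} {I T : End ℝ V} (hT : ∀ v ∈ S, T v ∈ S)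
    (hc : T * I = I * T) : ∀ v ∈ (S ⊓ LinearMap.ker (I - 1) : Submodule ℝ V),
      T v ∈ (S ⊓ LinearMap.ker (I - 1) : Submodule ℝ V) := by
  intro v hv
  rw [mem_fix] at hv ⊢
  refine ⟨hT v hv.1, ?_⟩
  have := congrArg (fun f : End ℝ V => f v) hc
  simp only [Module.End.mul_apply] at this
  rw [← this, hv.2]

end halving

/-! ### small cases -/

section small
variable {V : Type*} [AddCommGroup V] [Module ℝ V] [FiniteDimensional ℝ V]

lemma two_dvd (a : End ℝ V) (ha : a * a = -1) : 2 ∣ finrank ℝ V := by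
  by_contra hodd
  have h1 : Odd (finrank ℝ V) := by
    rw [← Nat.not_even_iff_odd, even_iff_two_dvd]; exact hodd
  have h2 : LinearMap.det (a * a) = LinearMap.det a * LinearMap.det a := map_mul _ _ _
  have h3 : LinearMap.det (-1 : End ℝ V) = (-1 : ℝ) ^ finrank ℝ V := by
    have : (-1 : End ℝ V) = (-1 : ℝ) • (1 : End ℝ V) := by simp
    rw [this, LinearMap.det_smul]
    simp
  rw [ha, h3, h1.neg_one_pow] at h2
  nlinarith [mul_self_nonneg (LinearMap.det a)]

open Quaternion in
lemma four_dvd (a b : End ℝ V) (ha : a * a = -1) (hb : b * b = -1) (hab : a * b = -(b * a)) :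
    4 ∣ finrank ℝ V := by
  let B : QuaternionAlgebra.Basis (End ℝ V) (-1 : ℝ) 0 (-1) :=
    { i := a
      j := b
      k := a * b
      i_mul_i := by rw [ha]; simp
      j_mul_j := by rw [hb]; simp
      i_mul_j := rfl
      j_mul_i := by rw [hab]; simp }
  let f : ℍ[ℝ] →ₐ[ℝ] End ℝ V := B.liftHom
  let _ : Module ℍ[ℝ] V := Module.compHom V f.toRingHom
  have _ : IsScalarTower ℝ ℍ[ℝ] V := by
    constructor
    intro r q v
    change f (r • q) v = r • f q v
    rw [map_smul]
    rfl
  have h := Module.finrank_mul_finrank ℝ ℍ[ℝ] V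
  rw [Quaternion.finrank_eq_four] at h
  exact ⟨_, h.symm⟩

lemma eight_dvd (J : Fin 4 → End ℝ V) (hJ : IsCliff J) : 8 ∣ finrank ℝ V := by
  set I : End ℝ V := wd J [0, 1, 2, 3] with hI
  have hII : I * I = 1 := by
    rw [hI, hJ.sq_wd]
    have : sqs [(0 : Fin 4), 1, 2, 3] = 1 := by decide
    rw [this, one_smul]
  have hIa : J 3 * I = -(I * J 3) := by
    have h := hJ.Q1 3 [0, 1, 2, 3]
    have : sg1 (3 : Fin 4) [0, 1, 2, 3] = -1 := by decide
    rw [this] at h
    unfold Q at h
    rw [hI, h]; simp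
  have h1 := halving (⊤ : Submodule ℝ V) I (J 3) (fun _ _ => Submodule.mem_top)
    (fun _ _ => Submodule.mem_top) hII (hJ.sq 3) hIa
  rw [finrank_top] at h1
  set S : Submodule ℝ V := ⊤ ⊓ LinearMap.ker (I - 1) with hS
  have hst : ∀ L : List (Fin 4), sg2 L [0, 1, 2, 3] = 1 → ∀ v ∈ S, wd J L v ∈ S := by
    intro L hL
    apply stable_fix (fun _ _ => Submodule.mem_top)
    have h := hJ.Q2 L [0, 1, 2, 3]
    rw [hL] at h
    unfold Q at h
    rw [h, one_smul]
  have ha := hst [0, 1] (by decide)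
  have hb := hst [0, 2] (by decide)
  let a : End ℝ S := (wd J [0, 1]).restrict ha
  let b : End ℝ S := (wd J [0, 2]).restrict hb
  have haa : a * a = -1 := by
    ext v
    have h := congrArg (fun f : End ℝ V => f (v : V)) (hJ.sq_wd [0, 1])
    have : sqs [(0 : Fin 4), 1] = -1 := by decide
    rw [this] at h
    simpa [a] using h
  have hbb : b * b = -1 := by
    ext v
    have h := congrArg (fun f : End ℝ V => f (v : V)) (hJ.sq_wd [0, 2])
    have : sqs [(0 : Fin 4), 2] = -1 := by decide
    rw [this] at h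
    simpa [b] using h
  have hab : a * b = -(b * a) := by
    ext v
    have h := congrArg (fun f : End ℝ V => f (v : V)) (hJ.Q2 [0, 1] [0, 2])
    have : sg2 [(0 : Fin 4), 1] [0, 2] = -1 := by decide
    rw [this] at h
    simpa [a, b] using h
  obtain ⟨c, hc⟩ := four_dvd a b haa hbb hab
  exact ⟨c, by rw [h1, hc]; ring⟩

end small

/-! ### the period -/

section period
variable {V : Type*} [AddCommGroup V] [Module ℝ V] [FiniteDimensional ℝ V]

lemma Q_wd_of_anti {A ι : Type*} [Ring A] {g : ι → A} {x : A}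
    (h : ∀ i, x * g i = -(g i * x)) (L : List ι) : Q ((-1) ^ L.length) x (wd g L) := by
  induction L with
  | nil => simpa [wd] using Q_one_right x
  | cons i L ih =>
    have h1 : Q (-1) x (g i) := by unfold Q; rw [h i]; simp
    have := Q_mul_right h1 ih
    simpa [wd, pow_succ'] using this

lemma step_sixteen (g : Fin 8 → End ℝ V) (hg : IsCliff g) :
    ∃ S : Submodule ℝ V, finrank ℝ V = 16 * finrank ℝ S ∧
      ∀ x : End ℝ V, (∀ i, x * g i = -(g i * x)) → ∀ v ∈ S, x v ∈ S := by
  have key : ∀ (S : Submodule ℝ V) (L : List (Fin 8)) (i : Fin 8),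
      (∀ v ∈ S, wd g L v ∈ S) → (∀ v ∈ S, g i v ∈ S) → sqs L = 1 → sg1 i L = -1 →
      finrank ℝ S = 2 * finrank ℝ (S ⊓ LinearMap.ker (wd g L - 1) : Submodule ℝ V) := by
    intro S L i h1 h2 h3 h4
    refine halving S (wd g L) (g i) h1 h2 ?_ (hg.sq i) ?_
    · rw [hg.sq_wd, h3, one_smul]
    · have h := hg.Q1 i L
      rw [h4] at h
      unfold Q at h
      rw [h]; simp
  have comm1 : ∀ (L : List (Fin 8)) (i : Fin 8), sg1 i L = 1 → g i * wd g L = wd g L * g i := by
    intro L i h
    have h1 := hg.Q1 i L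
    rw [h] at h1
    unfold Q at h1
    rw [h1, one_smul]
  have comm2 : ∀ L M : List (Fin 8), sg2 L M = 1 → wd g L * wd g M = wd g M * wd g L := by
    intro L M h
    have h1 := hg.Q2 L M
    rw [h] at h1
    unfold Q at h1
    rw [h1, one_smul]
  have commx : ∀ x : End ℝ V, (∀ i, x * g i = -(g i * x)) → ∀ L : List (Fin 8),
      (-1 : ℤ) ^ L.length = 1 → x * wd g L = wd g L * x := by
    intro x hx L hL
    have h1 := Q_wd_of_anti hx L
    rw [hL] at h1
    unfold Q at h1
    rw [h1, one_smul]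
  let L1 : List (Fin 8) := [0, 1, 2, 3]
  let L2 : List (Fin 8) := [0, 1, 4, 5]
  let L3 : List (Fin 8) := [0, 2, 4, 6]
  let L4 : List (Fin 8) := [4, 5, 6, 7]
  let S0 : Submodule ℝ V := ⊤
  let S1 : Submodule ℝ V := S0 ⊓ LinearMap.ker (wd g L1 - 1)
  let S2 : Submodule ℝ V := S1 ⊓ LinearMap.ker (wd g L2 - 1)
  let S3 : Submodule ℝ V := S2 ⊓ LinearMap.ker (wd g L3 - 1)
  let S4 : Submodule ℝ V := S3 ⊓ LinearMap.ker (wd g L4 - 1)
  have st0 : ∀ x : End ℝ V, ∀ v ∈ S0, x v ∈ S0 := fun _ _ _ => Submodule.mem_top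
  have st1 : ∀ x : End ℝ V, x * wd g L1 = wd g L1 * x → ∀ v ∈ S1, x v ∈ S1 :=
    fun x h1 => stable_fix (st0 x) h1
  have st2 : ∀ x : End ℝ V, x * wd g L1 = wd g L1 * x → x * wd g L2 = wd g L2 * x →
      ∀ v ∈ S2, x v ∈ S2 :=
    fun x h1 h2 => stable_fix (st1 x h1) h2
  have st3 : ∀ x : End ℝ V, x * wd g L1 = wd g L1 * x → x * wd g L2 = wd g L2 * x →
      x * wd g L3 = wd g L3 * x → ∀ v ∈ S3, x v ∈ S3 :=
    fun x h1 h2 h3 => stable_fix (st2 x h1 h2) h3
  have st4 : ∀ x : End ℝ V, x * wd g L1 = wd g L1 * x → x * wd g L2 = wd g L2 * x →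
      x * wd g L3 = wd g L3 * x → x * wd g L4 = wd g L4 * x → ∀ v ∈ S4, x v ∈ S4 :=
    fun x h1 h2 h3 h4 => stable_fix (st3 x h1 h2 h3) h4
  have e1 : finrank ℝ S0 = 2 * finrank ℝ S1 :=
    key S0 L1 0 (st0 _) (st0 _) (by decide) (by decide)
  have e2 : finrank ℝ S1 = 2 * finrank ℝ S2 :=
    key S1 L2 4 (st1 _ (comm2 _ _ (by decide))) (st1 _ (comm1 _ _ (by decide)))
      (by decide) (by decide)
  have e3 : finrank ℝ S2 = 2 * finrank ℝ S3 :=
    key S2 L3 6 (st2 _ (comm2 _ _ (by decide)) (comm2 _ _ (by decide)))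
      (st2 _ (comm1 _ _ (by decide)) (comm1 _ _ (by decide)))
      (by decide) (by decide)
  have e4 : finrank ℝ S3 = 2 * finrank ℝ S4 :=
    key S3 L4 7 (st3 _ (comm2 _ _ (by decide)) (comm2 _ _ (by decide)) (comm2 _ _ (by decide)))
      (st3 _ (comm1 _ _ (by decide)) (comm1 _ _ (by decide)) (comm1 _ _ (by decide)))
      (by decide) (by decide)
  have e0 : finrank ℝ S0 = finrank ℝ V := finrank_top ℝ V
  refine ⟨S4, by omega, fun x hx => ?_⟩
  exact st4 x (commx x hx _ (by decide)) (commx x hx _ (by decide)) (commx x hx _ (by decide))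
    (commx x hx _ (by decide))

end period

end Clifford

lemma rhPhi_succ (n : ℕ) : rhPhi (n + 1) = rhPhi n +
    if ((n + 1) % 8 = 0 ∨ (n + 1) % 8 = 1 ∨ (n + 1) % 8 = 2 ∨ (n + 1) % 8 = 4) then 1 else 0 := by
  unfold rhPhi
  rw [Finset.card_filter, Finset.card_filter, Finset.sum_Icc_succ_top (by omega)]

lemma rhPhi_add_eight (n : ℕ) : rhPhi (n + 8) = rhPhi n + 4 := by
  have h : n % 8 = 0 ∨ n % 8 = 1 ∨ n % 8 = 2 ∨ n % 8 = 3 ∨ n % 8 = 4 ∨ n % 8 = 5 ∨ n % 8 = 6 ∨
    n % 8 = 7 := by omega
  rw [show n + 8 = n + 7 + 1 from rfl, rhPhi_succ, show n + 7 = n + 6 + 1 from rfl, rhPhi_succ,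
    show n + 6 = n + 5 + 1 from rfl, rhPhi_succ, show n + 5 = n + 4 + 1 from rfl, rhPhi_succ,
    show n + 4 = n + 3 + 1 from rfl, rhPhi_succ, show n + 3 = n + 2 + 1 from rfl, rhPhi_succ,
    show n + 2 = n + 1 + 1 from rfl, rhPhi_succ, rhPhi_succ]
  rcases h with h | h | h | h | h | h | h | h <;>
    simp [Nat.add_mod, h]

namespace Clifford

/-- the main divisibility statement, by induction -/
theorem dvd_aux (n : ℕ) : ∀ {V : Type*} [AddCommGroup V] [Module ℝ V] [FiniteDimensional ℝ V]
    (J : Fin n → End ℝ V), IsCliff J → 2 ^ rhPhi n ∣ finrank ℝ V := by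
  induction n using Nat.strong_induction_on with
  | _ n ih =>
    intro V _ _ _ J hJ
    have sub : ∀ m (h : m ≤ n), IsCliff (fun i : Fin m => J (Fin.castLE h i)) := by
      intro m h
      refine ⟨fun i => hJ.sq _, fun i j hij => hJ.anti _ _ ?_⟩
      intro h'
      exact hij (Fin.castLE_injective h h')
    rcases Nat.lt_or_ge n 8 with h8 | h8
    · have r0 : rhPhi 0 = 0 := by decide
      have r1 : rhPhi 1 = 1 := by decide
      have r2 : rhPhi 2 = 2 := by decide
      have r3 : rhPhi 3 = 2 := by decide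
      have r4 : rhPhi 4 = 3 := by decide
      have r5 : rhPhi 5 = 3 := by decide
      have r6 : rhPhi 6 = 3 := by decide
      have r7 : rhPhi 7 = 3 := by decide
      have c2 : 2 ≤ n → 4 ∣ finrank ℝ V := by
        intro h
        have hs := sub 2 h
        exact four_dvd _ _ (hs.sq 0) (hs.sq 1) (hs.anti 0 1 (by decide))
      have c4 : 4 ≤ n → 8 ∣ finrank ℝ V := fun h => eight_dvd _ (sub 4 h)
      interval_cases n
      · rw [r0]; simp
      · rw [r1]; exact two_dvd _ (hJ.sq 0)
      · rw [r2]; exact c2 le_rfl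
      · rw [r3]; exact c2 (by norm_num)
      · rw [r4]; exact c4 le_rfl
      · rw [r5]; exact c4 (by norm_num)
      · rw [r6]; exact c4 (by norm_num)
      · rw [r7]; exact c4 (by norm_num)
    · obtain ⟨m, rfl⟩ : ∃ m, n = m + 8 := ⟨n - 8, by omega⟩
      obtain ⟨S, hS, hst⟩ := step_sixteen _ (sub 8 h8)
      let h : Fin m → End ℝ V := fun j => J ⟨j + 8, by omega⟩
      have hh : ∀ j, ∀ v ∈ S, h j v ∈ S := by
        intro j
        apply hst
        intro i
        apply hJ.anti
        intro h'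
        have := congrArg Fin.val h'
        simp at this
        omega
      have := ih m (by omega) (V := S) (fun j => (h j).restrict (hh j)) ⟨?_, ?_⟩
      · rw [rhPhi_add_eight, hS, pow_add, mul_comm]
        exact Nat.mul_dvd_mul (by norm_num) this
      · intro i
        ext v
        have h1 := congrArg (fun f : End ℝ V => f (v : V)) (hJ.sq ⟨i + 8, by omega⟩)
        simpa [h] using h1
      · intro i j hij
        ext v
        have h1 := congrArg (fun f : End ℝ V => f (v : V)) (hJ.anti ⟨i + 8, by omega⟩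
          ⟨j + 8, by omega⟩ (by
            intro h'
            apply hij
            have := congrArg Fin.val h'
            simp at this
            exact Fin.ext this))
        simpa [h] using h1

end Clifford

theorem two_pow_rhPhi_dvd_finrank {V : Type*} [AddCommGroup V] [Module ℝ V]
    [FiniteDimensional ℝ V] {n : ℕ} (J : Fin n → Module.End ℝ V) (hsq : ∀ i, J i * J i = -1)
    (hanti : ∀ i j, i ≠ j → J i * J j = -(J j * J i)) : 2 ^ rhPhi n ∣ Module.finrank ℝ V :=
  Clifford.dvd_aux n J ⟨hsq, hanti⟩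

/-! ### construction -/

namespace Clifford

/-- signed permutations giving `I` anticommuting skew matrices on `ι` -/
structure SP {I ι : Type*} (σ : I → ι → ι) (s : I → ι → ℤ) : Prop where
  inv : ∀ i y, σ i (σ i y) = y
  sgn : ∀ i y, s i y * s i y = 1
  skew : ∀ i y, s i (σ i y) = -s i y
  comm : ∀ i j y, σ i (σ j y) = σ j (σ i y)
  anti : ∀ i j, i ≠ j → ∀ y, s i (σ j y) * s j y = -(s j (σ i y) * s i y)

/-- the matrix of a signed permutation -/
def mat {ι : Type*} [DecidableEq ι] (σ : ι → ι) (s : ι → ℤ) : Matrix ι ι ℝ :=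
  Matrix.of fun x y => if x = σ y then (s y : ℝ) else 0

lemma mat_mul {ι : Type*} [DecidableEq ι] [Fintype ι] (σ τ : ι → ι) (s t : ι → ℤ) :
    mat σ s * mat τ t = mat (fun y => σ (τ y)) (fun y => s (τ y) * t y) := by
  ext x y
  rw [Matrix.mul_apply]
  simp only [mat, Matrix.of_apply]
  rw [Finset.sum_eq_single (τ y)]
  · by_cases h : x = σ (τ y) <;> simp [h]
  · intro b _ hb
    simp [hb]
  · simp

lemma mat_congr {ι : Type*} [DecidableEq ι] {σ τ : ι → ι} {s t : ι → ℤ}
    (h1 : ∀ y, σ y = τ y) (h2 : ∀ y, s y = t y) : mat σ s = mat τ t := by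
  rw [funext h1, funext h2]

lemma mat_neg {ι : Type*} [DecidableEq ι] (σ : ι → ι) (s : ι → ℤ) :
    mat σ (fun y => - s y) = - mat σ s := by
  ext x y
  simp only [mat, Matrix.of_apply, Matrix.neg_apply]
  split_ifs <;> simp

lemma mat_one {ι : Type*} [DecidableEq ι] : mat (fun y : ι => y) (fun _ => 1) = 1 := by
  ext x y
  simp [mat, Matrix.one_apply]

lemma SP.matrices {I ι : Type*} [DecidableEq ι] [Fintype ι] {σ : I → ι → ι} {s : I → ι → ℤ}
    (h : SP σ s) : ∃ J : I → Matrix ι ι ℝ, (∀ i, (J i).transpose = -(J i)) ∧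
      (∀ i, J i * J i = -1) ∧ ∀ i j, i ≠ j → J i * J j = -(J j * J i) := by
  refine ⟨fun i => mat (σ i) (s i), ?_, ?_, ?_⟩
  · intro i
    ext x y
    simp only [mat, Matrix.of_apply, Matrix.neg_apply, Matrix.transpose_apply]
    by_cases hxy : x = σ i y
    · have hyx : y = σ i x := by rw [hxy, h.inv]
      rw [if_pos hyx, if_pos hxy, hxy, h.skew]
      simp
    · have hyx : ¬ y = σ i x := by
        intro h'
        exact hxy (by rw [h', h.inv])
      rw [if_neg hyx, if_neg hxy]
      simp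
  · intro i
    rw [mat_mul, ← mat_one, ← mat_neg]
    apply mat_congr
    · exact h.inv i
    · intro y
      rw [h.skew]
      have := h.sgn i y
      linarith
  · intro i j hij
    rw [mat_mul, mat_mul, ← mat_neg]
    exact mat_congr (h.comm i j) (h.anti i j hij)

lemma SP.comp {I I' ι : Type*} {σ : I → ι → ι} {s : I → ι → ℤ} (h : SP σ s) (f : I' → I)
    (hf : Function.Injective f) : SP (fun i => σ (f i)) (fun i => s (f i)) :=
  ⟨fun i => h.inv _, fun i => h.sgn _, fun i => h.skew _, fun i j => h.comm _ _,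
    fun i j hij => h.anti _ _ (fun h' => hij (hf h'))⟩

/-- xor on `Fin (2 ^ k)`, with a fallback value -/
def xr (N : ℕ) (m : ℕ) (y : Fin N) : Fin N := if h : (m ^^^ (y : ℕ)) < N then ⟨_, h⟩ else y

/-- the sign given by a bit mask -/
def sm (N : ℕ) (m : ℕ) (y : Fin N) : ℤ := if Nat.testBit m y then -1 else 1

/-- masks for `n = 1`, `3`, `7`, `8` -/
def pm (l : List ℕ) (i : ℕ) : ℕ := l.getD i 0

lemma SP1 : SP (fun (i : Fin 1) => xr 2 (pm [1] i)) (fun i => sm 2 (pm [2] i)) := by
  constructor <;> decide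

lemma SP3 : SP (fun (i : Fin 3) => xr 4 (pm [1, 2, 3] i)) (fun i => sm 4 (pm [10, 6, 12] i)) := by
  constructor <;> decide +kernel

lemma SP7 : SP (fun (i : Fin 7) => xr 8 (pm [1, 2, 3, 4, 5, 6, 7] i))
    (fun i => sm 8 (pm [106, 198, 172, 30, 116, 216, 178] i)) := by
  constructor <;> decide +kernel

/-- the permutations for `n = 8` -/
def p8 (i : Fin 8) : Fin 16 → Fin 16 := xr 16 (pm [1, 2, 3, 4, 5, 6, 7, 8] i)
/-- the signs for `n = 8` -/
def s8 (i : Fin 8) : Fin 16 → ℤ :=
  sm 16 (pm [38250, 14790, 21420, 57630, 35700, 10200, 19890, 65280] i)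

lemma SP8 : SP p8 s8 := by
  constructor <;> decide +kernel

/-- the symmetry anticommuting with the eight generators -/
def pω : Fin 16 → Fin 16 := xr 16 8

lemma pω_inv : ∀ y, pω (pω y) = y := by decide +kernel
lemma pω_comm : ∀ i y, pω (p8 i y) = p8 i (pω y) := by decide +kernel
lemma pω_anti : ∀ i y, s8 i (pω y) = - s8 i y := by decide +kernel

lemma SP_step {I ι : Type*} {σ : I → ι → ι} {s : I → ι → ℤ} (h : SP σ s) :
    SP (I := Fin 8 ⊕ I) (ι := Fin 16 × ι)
      (fun i y => i.elim (fun a => (p8 a y.1, y.2)) (fun b => (pω y.1, σ b y.2)))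
      (fun i y => i.elim (fun a => s8 a y.1) (fun b => s b y.2)) := by
  have H := SP8
  constructor
  · rintro (a | b) ⟨x, y⟩
    · simp [H.inv]
    · simp [h.inv, pω_inv]
  · rintro (a | b) ⟨x, y⟩
    · simp [H.sgn]
    · simp [h.sgn]
  · rintro (a | b) ⟨x, y⟩
    · simp [H.skew]
    · simp [h.skew]
  · rintro (a | b) (c | d) ⟨x, y⟩
    · simp [H.comm a c]
    · simp [pω_comm]
    · simp [pω_comm]
    · simp [h.comm b d]
  · rintro (a | b) (c | d) hne ⟨x, y⟩
    · have : a ≠ c := fun h' => hne (by rw [h'])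
      simpa using H.anti a c this x
    · simp only [Sum.elim_inl, Sum.elim_inr]
      rw [pω_anti]; ring
    · simp only [Sum.elim_inl, Sum.elim_inr]
      rw [pω_anti]; ring
    · have : b ≠ d := fun h' => hne (by rw [h'])
      simpa using h.anti b d this y

lemma exists_SP (n : ℕ) : ∃ (ι : Type) (_ : Fintype ι) (_ : DecidableEq ι)
    (σ : Fin n → ι → ι) (s : Fin n → ι → ℤ), Fintype.card ι = 2 ^ rhPhi n ∧ SP σ s := by
  induction n using Nat.strong_induction_on with
  | _ n ih =>
    rcases Nat.lt_or_ge n 8 with h8 | h8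
    · have r0 : rhPhi 0 = 0 := by decide
      have r1 : rhPhi 1 = 1 := by decide
      have r2 : rhPhi 2 = 2 := by decide
      have r3 : rhPhi 3 = 2 := by decide
      have r4 : rhPhi 4 = 3 := by decide
      have r5 : rhPhi 5 = 3 := by decide
      have r6 : rhPhi 6 = 3 := by decide
      have r7 : rhPhi 7 = 3 := by decide
      have c3 : n ≤ 3 → ∃ (σ : Fin n → Fin 4 → Fin 4) (s : Fin n → Fin 4 → ℤ), SP σ s :=
        fun h => ⟨_, _, SP3.comp (Fin.castLE h) (Fin.castLE_injective h)⟩
      have c7 : n ≤ 7 → ∃ (σ : Fin n → Fin 8 → Fin 8) (s : Fin n → Fin 8 → ℤ), SP σ s :=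
        fun h => ⟨_, _, SP7.comp (Fin.castLE h) (Fin.castLE_injective h)⟩
      interval_cases n
      · exact ⟨Fin 1, inferInstance, inferInstance, fun _ y => y, fun _ _ => 1, by rw [r0]; simp,
          ⟨fun i => i.elim0, fun i => i.elim0, fun i => i.elim0, fun i => i.elim0,
            fun i => i.elim0⟩⟩
      · exact ⟨Fin 2, inferInstance, inferInstance, _, _, by rw [r1]; simp, SP1⟩
      · obtain ⟨σ, s, h⟩ := c3 (by norm_num)
        exact ⟨Fin 4, inferInstance, inferInstance, σ, s, by rw [r2]; simp, h⟩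
      · obtain ⟨σ, s, h⟩ := c3 (by norm_num)
        exact ⟨Fin 4, inferInstance, inferInstance, σ, s, by rw [r3]; simp, h⟩
      · obtain ⟨σ, s, h⟩ := c7 (by norm_num)
        exact ⟨Fin 8, inferInstance, inferInstance, σ, s, by rw [r4]; simp, h⟩
      · obtain ⟨σ, s, h⟩ := c7 (by norm_num)
        exact ⟨Fin 8, inferInstance, inferInstance, σ, s, by rw [r5]; simp, h⟩
      · obtain ⟨σ, s, h⟩ := c7 (by norm_num)
        exact ⟨Fin 8, inferInstance, inferInstance, σ, s, by rw [r6]; simp, h⟩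
      · obtain ⟨σ, s, h⟩ := c7 (by norm_num)
        exact ⟨Fin 8, inferInstance, inferInstance, σ, s, by rw [r7]; simp, h⟩
    · obtain ⟨m, rfl⟩ : ∃ m, n = 8 + m := ⟨n - 8, by omega⟩
      obtain ⟨ι, _, _, σ, s, hc, h⟩ := ih m (by omega)
      have h2 := (SP_step h).comp finSumFinEquiv.symm (Equiv.injective _)
      refine ⟨Fin 16 × ι, inferInstance, inferInstance, _, _, ?_, h2⟩
      rw [Fintype.card_prod, hc, add_comm 8 m, rhPhi_add_eight, pow_add, Fintype.card_fin,
        mul_comm]
      norm_num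

end Clifford

theorem exists_clifford_matrices (n : ℕ) :
    ∃ J : Fin n → Matrix (Fin (2 ^ rhPhi n)) (Fin (2 ^ rhPhi n)) ℝ,
      (∀ i, (J i).transpose = -(J i)) ∧ (∀ i, J i * J i = -1) ∧
      ∀ i j, i ≠ j → J i * J j = -(J j * J i) := by
  obtain ⟨ι, _, _, σ, s, hc, h⟩ := Clifford.exists_SP n
  obtain ⟨J, h1, h2, h3⟩ := h.matrices
  let e : ι ≃ Fin (2 ^ rhPhi n) := Fintype.equivFinOfCardEq hc
  let f := Matrix.reindexAlgEquiv ℝ ℝ e
  refine ⟨fun i => f (J i), ?_, ?_, ?_⟩
  · intro i
    have := congrArg (fun M => Matrix.reindex e e M) (h1 i)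
    ext x y
    have h4 := congrFun (congrFun (h1 i) (e.symm x)) (e.symm y)
    simpa [f] using h4
  · intro i
    rw [← map_mul, h2, map_neg, map_one]
  · intro i j hij
    rw [← map_mul, ← map_mul, h3 i j hij, map_neg]

end Pool.Agent.Helper86.FlagSphere
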