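import Mathlib
import Pool.Agent.Lib.Helper86.FlagSphere.Sector

/-!
# A concrete model of the Clifford data
-/

set_option autoImplicit false

namespace Pool.Agent.Helper86.FlagSphere

open Matrix Module
open scoped Kronecker

namespace Model

/-- fermionic Fock space in `N` modes, as matrices -/
structure FM (N : ℕ) (ι : Type) [Fintype ι] [DecidableEq ι] where
  b : Fin N → Matrix ι ι ℝ
  c : Fin N → Matrix ι ι ℝ
  g : Matrix ι ι ℝ
  E : Matrix ι ι ℝ
  bb : ∀ i j, b i * b j = -(b j * b i)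
  bbt : ∀ i j, b i * (b j)ᵀ = -((b j)ᵀ * b i) + if i = j then 1 else 0
  gt : gᵀ = g
  gg : g * g = 1
  gb : ∀ i, g * b i = -(b i * g)
  bE : ∀ i, b i * E = 0
  trE : E.trace = 1
  cb : 1 - E = ∑ i, c i * b i

lemma exists_FM (N : ℕ) : ∃ (ι : Type) (_ : Fintype ι) (_ : DecidableEq ι), Nonempty (FM N ι) := by
  induction N with
  | zero =>
    refine ⟨Fin 1, inferInstance, inferInstance, ⟨⟨fun i => i.elim0, fun i => i.elim0, 1, 1,
      fun i => i.elim0, fun i => i.elim0, by simp, by simp, fun i => i.elim0, fun i => i.elim0,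
      by simp, by simp⟩⟩⟩
  | succ N ih =>
    obtain ⟨ι, _, _, ⟨F⟩⟩ := ih
    let a : Matrix (Fin 2) (Fin 2) ℝ := !![0, 1; 0, 0]
    let Z : Matrix (Fin 2) (Fin 2) ℝ := !![1, 0; 0, -1]
    have haZ : a * Z = -(Z * a) := by
      ext i j; fin_cases i <;> fin_cases j <;> simp [a, Z, Matrix.mul_apply]
    have haa : a * a = 0 := by
      ext i j; fin_cases i <;> fin_cases j <;> simp [a, Matrix.mul_apply]
    have haat : a * aᵀ = -(aᵀ * a) + 1 := by
      ext i j; fin_cases i <;> fin_cases j <;> simp [a, Matrix.mul_apply]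
    have hZt : Zᵀ = Z := by
      ext i j; fin_cases i <;> fin_cases j <;> simp [Z]
    have hZZ : Z * Z = 1 := by
      ext i j; fin_cases i <;> fin_cases j <;> simp [Z, Matrix.mul_apply]
    have hZat : Z * aᵀ = -(aᵀ * Z) := by
      ext i j; fin_cases i <;> fin_cases j <;> simp [a, Z, Matrix.mul_apply]
    have haaat : a * (a * aᵀ) = 0 := by rw [← Matrix.mul_assoc, haa, Matrix.zero_mul]
    have htr : (a * aᵀ).trace = 1 := by
      have h : a * aᵀ = !![1, 0; 0, 0] := by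
        ext i j; fin_cases i <;> fin_cases j <;> simp [a, Matrix.mul_apply]
      rw [h]; simp [Matrix.trace]
    let b' : Fin (N + 1) → Matrix (Fin 2 × ι) (Fin 2 × ι) ℝ :=
      Fin.cons (a ⊗ₖ (1 : Matrix ι ι ℝ)) (fun i => Z ⊗ₖ F.b i)
    let c' : Fin (N + 1) → Matrix (Fin 2 × ι) (Fin 2 × ι) ℝ :=
      Fin.cons (aᵀ ⊗ₖ (1 : Matrix ι ι ℝ)) (fun i => (a * aᵀ * Z) ⊗ₖ F.c i)
    have neg_kr : ∀ (A : Matrix (Fin 2) (Fin 2) ℝ) (B : Matrix ι ι ℝ),
        (-A) ⊗ₖ B = -(A ⊗ₖ B) := by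
      intro A B; ext ⟨i, j⟩ ⟨k, l⟩; simp [Matrix.kroneckerMap_apply]
    have kr_neg : ∀ (A : Matrix (Fin 2) (Fin 2) ℝ) (B : Matrix ι ι ℝ),
        A ⊗ₖ (-B) = -(A ⊗ₖ B) := by
      intro A B; ext ⟨i, j⟩ ⟨k, l⟩; simp [Matrix.kroneckerMap_apply]
    have tr_kr : ∀ (A : Matrix (Fin 2) (Fin 2) ℝ) (B : Matrix ι ι ℝ),
        (A ⊗ₖ B)ᵀ = Aᵀ ⊗ₖ Bᵀ := by
      intro A B; rw [Matrix.kroneckerMap_transpose]
    refine ⟨Fin 2 × ι, inferInstance, inferInstance, ⟨⟨b', c', Z ⊗ₖ F.g, (a * aᵀ) ⊗ₖ F.E,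
      ?_, ?_, ?_, ?_, ?_, ?_, ?_, ?_⟩⟩⟩
    · intro i j
      refine Fin.cases ?_ (fun i => ?_) i <;> refine Fin.cases ?_ (fun j => ?_) j
      · simp [b', ← Matrix.mul_kronecker_mul, haa]
      · simp [b', ← Matrix.mul_kronecker_mul, haZ, neg_kr]
      · simp [b', ← Matrix.mul_kronecker_mul, haZ, neg_kr]
      · simp only [b', Fin.cons_succ, ← Matrix.mul_kronecker_mul]
        rw [F.bb i j, kr_neg]
    · intro i j
      refine Fin.cases ?_ (fun i => ?_) i <;> refine Fin.cases ?_ (fun j => ?_) j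
      · simp only [b', Fin.cons_zero, tr_kr, ← Matrix.mul_kronecker_mul, haat, if_true]
        rw [Matrix.add_kronecker, neg_kr]
        simp
      · have h : (0 : Fin (N + 1)) ≠ j.succ := (Fin.succ_ne_zero j).symm
        simp only [b', Fin.cons_zero, Fin.cons_succ, tr_kr, ← Matrix.mul_kronecker_mul, hZt, haZ,
          neg_kr, h, if_false, Matrix.one_mul, Matrix.mul_one, add_zero]
      · have h : i.succ ≠ (0 : Fin (N + 1)) := Fin.succ_ne_zero i
        simp only [b', Fin.cons_zero, Fin.cons_succ, tr_kr, ← Matrix.mul_kronecker_mul, hZat,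
          neg_kr, h, if_false, Matrix.one_mul, Matrix.mul_one, add_zero, Matrix.transpose_one]
      · simp only [b', Fin.cons_succ, tr_kr, ← Matrix.mul_kronecker_mul, hZt, hZZ, F.bbt i j,
          Fin.succ_inj]
        rw [Matrix.kronecker_add, kr_neg]
        split_ifs <;> simp
    · rw [tr_kr, hZt, F.gt]
    · rw [← Matrix.mul_kronecker_mul, hZZ, F.gg]; simp
    · intro i
      refine Fin.cases ?_ (fun i => ?_) i
      · simp [b', ← Matrix.mul_kronecker_mul, haZ, neg_kr]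
      · simp only [b', Fin.cons_succ, ← Matrix.mul_kronecker_mul]
        rw [F.gb i, kr_neg]
    · intro i
      refine Fin.cases ?_ (fun i => ?_) i
      · simp [b', ← Matrix.mul_kronecker_mul, haaat]
      · simp [b', ← Matrix.mul_kronecker_mul, F.bE i]
    · rw [Matrix.trace_kronecker, htr, F.trE, one_mul]
    · rw [Fin.sum_univ_succ]
      simp only [b', c', Fin.cons_zero, Fin.cons_succ, ← Matrix.mul_kronecker_mul]
      have h1 : a * aᵀ * Z * Z = a * aᵀ := by rw [Matrix.mul_assoc, hZZ, Matrix.mul_one]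
      rw [h1]
      have h2 : ∑ x, (a * aᵀ) ⊗ₖ (F.c x * F.b x) = (a * aᵀ) ⊗ₖ (1 - F.E) := by
        rw [F.cb]
        ext ⟨i, j⟩ ⟨k, l⟩
        simp [Matrix.kroneckerMap_apply, Matrix.sum_apply, Finset.mul_sum]
      rw [h2]
      have h3 : aᵀ * a = 1 - a * aᵀ := by rw [haat]; abel
      rw [h3]
      ext ⟨i, j⟩ ⟨k, l⟩
      simp only [Matrix.kroneckerMap_apply, Matrix.sub_apply, Matrix.add_apply, Matrix.one_apply,
        Matrix.mul_one, Prod.mk.injEq, ite_and]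
      by_cases h : i = k <;> by_cases h' : j = l <;> simp [h, h'] <;> ring

end Model

/-- the action of a matrix -/
noncomputable abbrev TM {κ : Type} [Fintype κ] [DecidableEq κ] (M : Matrix κ κ ℝ) :
    EuclideanSpace ℝ κ →L[ℝ] EuclideanSpace ℝ κ := Matrix.toEuclideanCLM (𝕜 := ℝ) (n := κ) M

lemma TM_adj {κ : Type} [Fintype κ] [DecidableEq κ] (M : Matrix κ κ ℝ) (x y : EuclideanSpace ℝ κ) :
    inner ℝ (TM M x) y = inner ℝ x (TM Mᵀ y) := by
  have h : TM Mᵀ = ContinuousLinearMap.adjoint (TM M) := by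
    have := map_star (Matrix.toEuclideanCLM (𝕜 := ℝ) (n := κ)) M
    rw [Matrix.star_eq_conjTranspose, Matrix.conjTranspose_eq_transpose_of_trivial] at this
    exact this
  rw [h, ContinuousLinearMap.adjoint_inner_right]

lemma TM_mul {κ : Type} [Fintype κ] [DecidableEq κ] (M N : Matrix κ κ ℝ)
    (x : EuclideanSpace ℝ κ) : TM M (TM N x) = TM (M * N) x := by
  have : TM (M * N) = TM M * TM N := map_mul (Matrix.toEuclideanCLM (𝕜 := ℝ) (n := κ)) M N
  rw [this]; rfl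

lemma TM_one {κ : Type} [Fintype κ] [DecidableEq κ]
    (x : EuclideanSpace ℝ κ) : TM (1 : Matrix κ κ ℝ) x = x := by
  have : TM (1 : Matrix κ κ ℝ) = 1 := map_one (Matrix.toEuclideanCLM (𝕜 := ℝ) (n := κ))
  rw [this]; rfl

lemma TM_neg {κ : Type} [Fintype κ] [DecidableEq κ] (M : Matrix κ κ ℝ)
    (x : EuclideanSpace ℝ κ) : TM (-M) x = -TM M x := by
  have : TM (-M) = -TM M := map_neg (Matrix.toEuclideanCLM (𝕜 := ℝ) (n := κ)) M
  rw [this]; rfl

lemma TM_add {κ : Type} [Fintype κ] [DecidableEq κ] (M N : Matrix κ κ ℝ)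
    (x : EuclideanSpace ℝ κ) : TM (M + N) x = TM M x + TM N x := by
  have : TM (M + N) = TM M + TM N := map_add (Matrix.toEuclideanCLM (𝕜 := ℝ) (n := κ)) M N
  rw [this]; rfl

lemma TM_zero {κ : Type} [Fintype κ] [DecidableEq κ]
    (x : EuclideanSpace ℝ κ) : TM (0 : Matrix κ κ ℝ) x = 0 := by
  have : TM (0 : Matrix κ κ ℝ) = 0 := map_zero (Matrix.toEuclideanCLM (𝕜 := ℝ) (n := κ))
  rw [this]; rfl

lemma TM_smul {κ : Type} [Fintype κ] [DecidableEq κ] (r : ℝ) (M : Matrix κ κ ℝ)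
    (x : EuclideanSpace ℝ κ) : TM (r • M) x = r • TM M x := by
  have : TM (r • M) = r • TM M := map_smul (Matrix.toEuclideanCLM (𝕜 := ℝ) (n := κ)) r M
  rw [this]; rfl

lemma TM_sum {κ α : Type} [Fintype κ] [DecidableEq κ] (s : Finset α) (M : α → Matrix κ κ ℝ)
    (x : EuclideanSpace ℝ κ) : TM (∑ i ∈ s, M i) x = ∑ i ∈ s, TM (M i) x := by
  have : TM (∑ i ∈ s, M i) = ∑ i ∈ s, TM (M i) :=
    map_sum (Matrix.toEuclideanCLM (𝕜 := ℝ) (n := κ)) M s
  rw [this]; simp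

lemma trace_TM {κ : Type} [Fintype κ] [DecidableEq κ] (M : Matrix κ κ ℝ) :
    LinearMap.trace ℝ _ (TM M : EuclideanSpace ℝ κ →ₗ[ℝ] EuclideanSpace ℝ κ) = M.trace := by
  rw [LinearMap.trace_eq_matrix_trace ℝ (EuclideanSpace.basisFun κ ℝ).toBasis]
  congr 1
  ext i j
  rw [LinearMap.toMatrix_apply]
  simp [TM, Matrix.ofLp_toEuclideanCLM, Matrix.mulVec_single]

theorem exists_CD (N d k : ℕ) (w : Matrix (Fin d) (Fin d) ℝ) (hws : w.transpose = w)
    (hw : w * w = 1) (htr : w.trace = (d : ℝ) - 2 * k) :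
    ∃ (κ : Type) (_ : Fintype κ) (_ : DecidableEq κ) (D : CD N (EuclideanSpace ℝ κ))
      (Ψ : Matrix (Fin d) (Fin d) ℝ →ₗ[ℝ] (EuclideanSpace ℝ κ →L[ℝ] EuclideanSpace ℝ κ)),
      (∀ m x y, inner ℝ (Ψ m x) y = inner ℝ x (Ψ m y)) ∧
      (∀ m i x, Ψ m (D.b i x) = - D.b i (Ψ m x)) ∧
      (∀ m i x, Ψ m (D.bs i x) = - D.bs i (Ψ m x)) ∧
      (∀ m x, Ψ m (D.G x) = - D.G (Ψ m x)) ∧
      (∀ m x, D.R (Ψ (w * m) (D.R x)) = - Ψ m x) ∧
      (∀ m, m.det ≠ 0 → Function.Injective (Ψ m)) ∧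
      ((Module.finrank ℝ D.K0p : ℤ) - Module.finrank ℝ D.K0m = 2 * k) := by
  obtain ⟨ι, _, _, ⟨F⟩⟩ := Model.exists_FM N
  -- matrices on `Fin d ⊕ Fin d`
  let r : Matrix (Fin d ⊕ Fin d) (Fin d ⊕ Fin d) ℝ := Matrix.fromBlocks 1 0 0 (-w)
  let s : Matrix (Fin d ⊕ Fin d) (Fin d ⊕ Fin d) ℝ := Matrix.fromBlocks 1 0 0 (-1)
  let q : Matrix (Fin d) (Fin d) ℝ → Matrix (Fin d ⊕ Fin d) (Fin d ⊕ Fin d) ℝ :=
    fun m => Matrix.fromBlocks 0 mᵀ m 0
  have hrt : rᵀ = r := by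
    simp only [r, Matrix.fromBlocks_transpose, Matrix.transpose_zero, Matrix.transpose_one,
      Matrix.transpose_neg, hws]
  have hst : sᵀ = s := by
    simp only [s, Matrix.fromBlocks_transpose, Matrix.transpose_zero, Matrix.transpose_one,
      Matrix.transpose_neg]
  have hqt : ∀ m, (q m)ᵀ = q m := by
    intro m
    simp only [q, Matrix.fromBlocks_transpose, Matrix.transpose_zero, Matrix.transpose_transpose]
  have hrr : r * r = 1 := by
    simp [r, Matrix.fromBlocks_multiply, hw]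
  have hss : s * s = 1 := by
    simp [s, Matrix.fromBlocks_multiply]
  have hrs : r * s = s * r := by
    simp [r, s, Matrix.fromBlocks_multiply]
  have hqs : ∀ m, q m * s = -(s * q m) := by
    intro m
    simp [q, s, Matrix.fromBlocks_multiply, Matrix.fromBlocks_neg]
  have hrqr : ∀ m, r * q (w * m) * r = -(q m) := by
    intro m
    have h1 : w * (w * m) = m := by rw [← Matrix.mul_assoc, hw, Matrix.one_mul]
    have h2 : mᵀ * w * w = mᵀ := by rw [Matrix.mul_assoc, hw, Matrix.mul_one]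
    simp [q, r, Matrix.fromBlocks_multiply, Matrix.fromBlocks_neg, Matrix.transpose_mul, hws,
      h1, h2]
  have hqinj : ∀ m : Matrix (Fin d) (Fin d) ℝ, m.det ≠ 0 → ∃ p, p * q m = 1 := by
    intro m hm
    have hu : IsUnit m.det := isUnit_iff_ne_zero.mpr hm
    have hu' : IsUnit (mᵀ).det := by rwa [Matrix.det_transpose]
    refine ⟨Matrix.fromBlocks 0 m⁻¹ (mᵀ)⁻¹ 0, ?_⟩
    simp [q, Matrix.fromBlocks_multiply, Matrix.nonsing_inv_mul _ hu,
      Matrix.nonsing_inv_mul _ hu']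
  have hrtr : r.trace = 2 * k := by
    have h1 : r.trace = (1 : Matrix (Fin d) (Fin d) ℝ).trace + (-w).trace := by
      simp only [Matrix.trace, Fintype.sum_sum_type, r, Matrix.diag_apply,
        Matrix.fromBlocks_apply₁₁, Matrix.fromBlocks_apply₂₂]
    rw [h1, Matrix.trace_neg, htr, Matrix.trace_one, Fintype.card_fin]
    ring
  -- Kronecker helpers
  have neg_kr : ∀ (A : Matrix ι ι ℝ) (B : Matrix (Fin d ⊕ Fin d) (Fin d ⊕ Fin d) ℝ),
      (-A) ⊗ₖ B = -(A ⊗ₖ B) := by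
    intro A B; ext ⟨i, j⟩ ⟨k, l⟩; simp [Matrix.kroneckerMap_apply]
  have kr_neg : ∀ (A : Matrix ι ι ℝ) (B : Matrix (Fin d ⊕ Fin d) (Fin d ⊕ Fin d) ℝ),
      A ⊗ₖ (-B) = -(A ⊗ₖ B) := by
    intro A B; ext ⟨i, j⟩ ⟨k, l⟩; simp [Matrix.kroneckerMap_apply]
  have tr_kr : ∀ (A : Matrix ι ι ℝ) (B : Matrix (Fin d ⊕ Fin d) (Fin d ⊕ Fin d) ℝ),
      (A ⊗ₖ B)ᵀ = Aᵀ ⊗ₖ Bᵀ := by
    intro A B; rw [Matrix.kroneckerMap_transpose]
  let I : Matrix (Fin d ⊕ Fin d) (Fin d ⊕ Fin d) ℝ := 1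
  let J : Matrix ι ι ℝ := 1
  have It : Iᵀ = I := Matrix.transpose_one
  have Jt : Jᵀ = J := Matrix.transpose_one
  have gbt : ∀ i, F.g * (F.b i)ᵀ = -((F.b i)ᵀ * F.g) := by
    intro i
    have := congrArg Matrix.transpose (F.gb i)
    rw [Matrix.transpose_neg, Matrix.transpose_mul, Matrix.transpose_mul, F.gt] at this
    rw [this, neg_neg]
  have btbt : ∀ i j, (F.b i)ᵀ * (F.b j)ᵀ = -((F.b j)ᵀ * (F.b i)ᵀ) := by
    intro i j
    rw [← Matrix.transpose_mul, ← Matrix.transpose_mul, ← Matrix.transpose_neg, F.bb j i]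
  let D : CD N (EuclideanSpace ℝ (ι × (Fin d ⊕ Fin d))) :=
    { b := fun i => (TM (F.b i ⊗ₖ I) : _ →ₗ[ℝ] _)
      bs := fun i => (TM ((F.b i)ᵀ ⊗ₖ I) : _ →ₗ[ℝ] _)
      G := (TM (F.g ⊗ₖ s) : _ →ₗ[ℝ] _)
      R := (TM (J ⊗ₖ r) : _ →ₗ[ℝ] _)
      adj := by
        intro i x y
        change inner ℝ (TM ((F.b i)ᵀ ⊗ₖ I) x) y = inner ℝ x (TM (F.b i ⊗ₖ I) y)
        rw [TM_adj, tr_kr, It, Matrix.transpose_transpose]
      bb := by
        intro i j x
        change TM (F.b i ⊗ₖ I) (TM (F.b j ⊗ₖ I) x) = -TM (F.b j ⊗ₖ I) (TM (F.b i ⊗ₖ I) x)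
        rw [TM_mul, TM_mul, ← Matrix.mul_kronecker_mul, ← Matrix.mul_kronecker_mul, F.bb i j,
          neg_kr, TM_neg]
      bsbs := by
        intro i j x
        change TM ((F.b i)ᵀ ⊗ₖ I) (TM ((F.b j)ᵀ ⊗ₖ I) x) =
          -TM ((F.b j)ᵀ ⊗ₖ I) (TM ((F.b i)ᵀ ⊗ₖ I) x)
        rw [TM_mul, TM_mul, ← Matrix.mul_kronecker_mul, ← Matrix.mul_kronecker_mul, btbt i j,
          neg_kr, TM_neg]
      bbs := by
        intro i j x
        change TM (F.b i ⊗ₖ I) (TM ((F.b j)ᵀ ⊗ₖ I) x) =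
          -TM ((F.b j)ᵀ ⊗ₖ I) (TM (F.b i ⊗ₖ I) x) + if i = j then x else 0
        rw [TM_mul, TM_mul, ← Matrix.mul_kronecker_mul, ← Matrix.mul_kronecker_mul, F.bbt i j,
          Matrix.add_kronecker, TM_add, neg_kr, TM_neg]
        congr 1
        split_ifs
        · simp only [I, Matrix.mul_one, Matrix.one_kronecker_one, TM_one]
        · simp only [Matrix.zero_kronecker, TM_zero]
      Gadj := by
        intro x y
        change inner ℝ (TM (F.g ⊗ₖ s) x) y = inner ℝ x (TM (F.g ⊗ₖ s) y)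
        rw [TM_adj, tr_kr, F.gt, hst]
      GG := by
        intro x
        change TM (F.g ⊗ₖ s) (TM (F.g ⊗ₖ s) x) = x
        rw [TM_mul, ← Matrix.mul_kronecker_mul, F.gg, hss, Matrix.one_kronecker_one, TM_one]
      Gb := by
        intro i x
        change TM (F.g ⊗ₖ s) (TM (F.b i ⊗ₖ I) x) = -TM (F.b i ⊗ₖ I) (TM (F.g ⊗ₖ s) x)
        rw [TM_mul, TM_mul, ← Matrix.mul_kronecker_mul, ← Matrix.mul_kronecker_mul, F.gb i,
          neg_kr, TM_neg]
        simp only [I, Matrix.mul_one, Matrix.one_mul]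
      Gbs := by
        intro i x
        change TM (F.g ⊗ₖ s) (TM ((F.b i)ᵀ ⊗ₖ I) x) = -TM ((F.b i)ᵀ ⊗ₖ I) (TM (F.g ⊗ₖ s) x)
        rw [TM_mul, TM_mul, ← Matrix.mul_kronecker_mul, ← Matrix.mul_kronecker_mul, gbt i,
          neg_kr, TM_neg]
        simp only [I, Matrix.mul_one, Matrix.one_mul]
      Radj := by
        intro x y
        change inner ℝ (TM (J ⊗ₖ r) x) y = inner ℝ x (TM (J ⊗ₖ r) y)
        rw [TM_adj, tr_kr, Jt, hrt]
      RR := by
        intro x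
        change TM (J ⊗ₖ r) (TM (J ⊗ₖ r) x) = x
        rw [TM_mul, ← Matrix.mul_kronecker_mul, hrr]
        simp only [J, Matrix.mul_one, Matrix.one_kronecker_one, TM_one]
      Rb := by
        intro i x
        change TM (J ⊗ₖ r) (TM (F.b i ⊗ₖ I) x) = TM (F.b i ⊗ₖ I) (TM (J ⊗ₖ r) x)
        rw [TM_mul, TM_mul, ← Matrix.mul_kronecker_mul, ← Matrix.mul_kronecker_mul]
        simp only [I, J, Matrix.mul_one, Matrix.one_mul]
      Rbs := by
        intro i x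
        change TM (J ⊗ₖ r) (TM ((F.b i)ᵀ ⊗ₖ I) x) = TM ((F.b i)ᵀ ⊗ₖ I) (TM (J ⊗ₖ r) x)
        rw [TM_mul, TM_mul, ← Matrix.mul_kronecker_mul, ← Matrix.mul_kronecker_mul]
        simp only [I, J, Matrix.mul_one, Matrix.one_mul]
      RG := by
        intro x
        change TM (J ⊗ₖ r) (TM (F.g ⊗ₖ s) x) = TM (F.g ⊗ₖ s) (TM (J ⊗ₖ r) x)
        rw [TM_mul, TM_mul, ← Matrix.mul_kronecker_mul, ← Matrix.mul_kronecker_mul, hrs]
        simp only [J, Matrix.mul_one, Matrix.one_mul] }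
  let Ψ : Matrix (Fin d) (Fin d) ℝ →ₗ[ℝ]
      (EuclideanSpace ℝ (ι × (Fin d ⊕ Fin d)) →L[ℝ] EuclideanSpace ℝ (ι × (Fin d ⊕ Fin d))) :=
    { toFun := fun m => TM (F.g ⊗ₖ q m)
      map_add' := by
        intro m n
        have h1 : q (m + n) = q m + q n := by
          simp [q, Matrix.fromBlocks_add]
        ext1 x
        rw [_root_.add_apply, h1, Matrix.kronecker_add, TM_add]
      map_smul' := by
        intro t m
        have h1 : q (t • m) = t • q m := by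
          simp [q, Matrix.fromBlocks_smul]
        ext1 x
        rw [RingHom.id_apply, _root_.smul_apply, h1, Matrix.kronecker_smul,
          TM_smul] }
  refine ⟨ι × (Fin d ⊕ Fin d), inferInstance, inferInstance, D, Ψ, ?_, ?_, ?_, ?_, ?_, ?_, ?_⟩
  · intro m x y
    change inner ℝ (TM (F.g ⊗ₖ q m) x) y = inner ℝ x (TM (F.g ⊗ₖ q m) y)
    rw [TM_adj, tr_kr, F.gt, hqt]
  · intro m i x
    change TM (F.g ⊗ₖ q m) (TM (F.b i ⊗ₖ I) x) = -TM (F.b i ⊗ₖ I) (TM (F.g ⊗ₖ q m) x)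
    rw [TM_mul, TM_mul, ← Matrix.mul_kronecker_mul, ← Matrix.mul_kronecker_mul, F.gb i,
      neg_kr, TM_neg]
    simp only [I, Matrix.mul_one, Matrix.one_mul]
  · intro m i x
    change TM (F.g ⊗ₖ q m) (TM ((F.b i)ᵀ ⊗ₖ I) x) = -TM ((F.b i)ᵀ ⊗ₖ I) (TM (F.g ⊗ₖ q m) x)
    rw [TM_mul, TM_mul, ← Matrix.mul_kronecker_mul, ← Matrix.mul_kronecker_mul, gbt i,
      neg_kr, TM_neg]
    simp only [I, Matrix.mul_one, Matrix.one_mul]
  · intro m x
    change TM (F.g ⊗ₖ q m) (TM (F.g ⊗ₖ s) x) = -TM (F.g ⊗ₖ s) (TM (F.g ⊗ₖ q m) x)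
    rw [TM_mul, TM_mul, ← Matrix.mul_kronecker_mul, ← Matrix.mul_kronecker_mul, hqs, kr_neg,
      TM_neg]
  · intro m x
    change TM (J ⊗ₖ r) (TM (F.g ⊗ₖ q (w * m)) (TM (J ⊗ₖ r) x)) = -TM (F.g ⊗ₖ q m) x
    rw [TM_mul, TM_mul, ← Matrix.mul_kronecker_mul, ← Matrix.mul_kronecker_mul, ← TM_neg,
      ← kr_neg, ← hrqr, Matrix.mul_assoc r]
    simp only [J, Matrix.mul_one, Matrix.one_mul]
  · intro m hm x y hxy
    obtain ⟨p, hp⟩ := hqinj m hm
    have h1 : TM (F.g ⊗ₖ p) (TM (F.g ⊗ₖ q m) x) = TM (F.g ⊗ₖ p) (TM (F.g ⊗ₖ q m) y) :=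
      congrArg _ hxy
    rw [TM_mul, TM_mul, ← Matrix.mul_kronecker_mul, F.gg, hp, Matrix.one_kronecker_one, TM_one,
      TM_one] at h1
    exact h1
  · -- dimension count
    have hEE : F.E * F.E = F.E := by
      have h1 : (1 - F.E) * F.E = 0 := by
        rw [F.cb, Finset.sum_mul]
        exact Finset.sum_eq_zero (fun i _ => by rw [Matrix.mul_assoc, F.bE, Matrix.mul_zero])
      rw [Matrix.sub_mul, Matrix.one_mul, sub_eq_zero] at h1
      exact h1.symm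
    have fixE : ∀ (A : Matrix (Fin d ⊕ Fin d) (Fin d ⊕ Fin d) ℝ)
        (x : EuclideanSpace ℝ (ι × (Fin d ⊕ Fin d))), (∀ i, TM (F.b i ⊗ₖ I) x = 0) →
        TM (F.E ⊗ₖ A) x = TM (J ⊗ₖ A) x := by
      intro A x hx
      have h1 : J ⊗ₖ A = F.E ⊗ₖ A + ∑ i, (F.c i ⊗ₖ A) * (F.b i ⊗ₖ I) := by
        have h2 : ∀ i, (F.c i ⊗ₖ A) * (F.b i ⊗ₖ I) = (F.c i * F.b i) ⊗ₖ A := by
          intro i
          rw [← Matrix.mul_kronecker_mul]
          simp only [I, Matrix.mul_one]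
        rw [Finset.sum_congr rfl (fun i _ => h2 i)]
        have h3 : ∑ i, (F.c i * F.b i) ⊗ₖ A = (1 - F.E) ⊗ₖ A := by
          rw [F.cb]
          ext ⟨i, j⟩ ⟨k, l⟩
          simp [Matrix.kroneckerMap_apply, Matrix.sum_apply, Finset.sum_mul]
        rw [h3, ← Matrix.add_kronecker]
        simp [J]
      rw [h1, TM_add, TM_sum]
      have h4 : ∀ i, TM ((F.c i ⊗ₖ A) * (F.b i ⊗ₖ I)) x = 0 := by
        intro i
        rw [← TM_mul, hx i, map_zero]
      rw [Finset.sum_eq_zero (fun i _ => h4 i), add_zero]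
    have hproj : ∀ (ε : ℝ), ε * ε = 1 → ∀ S : Submodule ℝ (EuclideanSpace ℝ (ι × (Fin d ⊕ Fin d))),
        (∀ x, x ∈ S ↔ (∀ i, TM (F.b i ⊗ₖ I) x = 0) ∧ TM (J ⊗ₖ r) x = ε • x) →
        (finrank ℝ S : ℝ) = d + ε * k := by
      intro ε hε S hS
      let P : Matrix (Fin d ⊕ Fin d) (Fin d ⊕ Fin d) ℝ := (1 / 2 : ℝ) • (1 + ε • r)
      have hP : r * P = ε • P := by
        simp only [P, Matrix.mul_smul, Matrix.mul_add, Matrix.mul_one, hrr]
        rw [smul_comm ε (1 / 2 : ℝ), smul_add ε, smul_smul ε ε, hε, one_smul, add_comm]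
      have hpr : LinearMap.IsProj S (TM (F.E ⊗ₖ P) : EuclideanSpace ℝ (ι × (Fin d ⊕ Fin d)) →ₗ[ℝ]
          EuclideanSpace ℝ (ι × (Fin d ⊕ Fin d))) := by
        constructor
        · intro x
          rw [hS]
          change (∀ i, TM (F.b i ⊗ₖ I) (TM (F.E ⊗ₖ P) x) = 0) ∧
            TM (J ⊗ₖ r) (TM (F.E ⊗ₖ P) x) = ε • TM (F.E ⊗ₖ P) x
          constructor
          · intro i
            rw [TM_mul, ← Matrix.mul_kronecker_mul, F.bE, Matrix.zero_kronecker, TM_zero]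
          · rw [TM_mul, ← Matrix.mul_kronecker_mul, hP, Matrix.kronecker_smul, TM_smul]
            simp only [J, Matrix.one_mul]
        · intro x hx
          rw [hS] at hx
          change TM (F.E ⊗ₖ P) x = x
          rw [fixE P x hx.1]
          have h1 : J ⊗ₖ P = (1 / 2 : ℝ) • (1 + ε • (J ⊗ₖ r)) := by
            simp only [P, J, Matrix.kronecker_smul, Matrix.kronecker_add,
              Matrix.one_kronecker_one]
          rw [h1, TM_smul, TM_add, TM_one, TM_smul, hx.2, smul_smul, hε]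
          module
      have h2 := hpr.trace
      rw [trace_TM, Matrix.trace_kronecker, F.trE, one_mul] at h2
      rw [← h2]
      simp [P, Matrix.trace_smul, Matrix.trace_add, hrtr]
      ring
    have hp := hproj 1 (by norm_num) D.K0p (by
      intro x
      rw [CD.mem_K0p, one_smul]
      rfl)
    have hm := hproj (-1) (by norm_num) D.K0m (by
      intro x
      rw [CD.mem_K0m, neg_one_smul]
      rfl)
    have h3 : ((finrank ℝ D.K0p : ℝ)) - finrank ℝ D.K0m = 2 * k := by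
      rw [hp, hm]; ring
    exact_mod_cast h3

end Pool.Agent.Helper86.FlagSphere
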